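import Mathlib

/-! Regular triangulation of a cell (TX-G1): pure linear algebra. -/

set_option autoImplicit false

noncomputable section

namespace Pool.Agent.helper73.TC

namespace G1

/-- the linear functional with coefficients `c` -/
def Lf (c : Fin 3 → Fin 4 → ℝ) : (Fin 3 → Fin 4 → ℝ) →ₗ[ℝ] ℝ where
  toFun z := ∑ i, ∑ j, c i j * z i j
  map_add' x y := by
    simp only [Pi.add_apply, mul_add, Finset.sum_add_distrib]
  map_smul' a x := by
    simp only [Pi.smul_apply, smul_eq_mul, RingHom.id_apply, Finset.mul_sum]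
    refine Finset.sum_congr rfl fun i _ => Finset.sum_congr rfl fun j _ => ?_
    ring

theorem Lf_apply (c z : Fin 3 → Fin 4 → ℝ) : Lf c z = ∑ i, ∑ j, c i j * z i j := rfl

/-- coordinate functional -/
def Cf (i : Fin 3) (j : Fin 4) : (Fin 3 → Fin 4 → ℝ) →ₗ[ℝ] ℝ where
  toFun z := z i j
  map_add' _ _ := rfl
  map_smul' _ _ := rfl

theorem Cf_apply (i : Fin 3) (j : Fin 4) (z : Fin 3 → Fin 4 → ℝ) : Cf i j z = z i j := rfl

/-- the space of arrays with zeros at `(i, o i)` and equal row sums -/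
def U (o : Fin 3 → Fin 4) : Submodule ℝ (Fin 3 → Fin 4 → ℝ) where
  carrier := {u | (∀ i, u i (o i) = 0) ∧ ∀ i, ∑ j, u i j = ∑ j, u 0 j}
  zero_mem' := by simp
  add_mem' := by
    rintro x y ⟨h1, h2⟩ ⟨h3, h4⟩
    refine ⟨fun i => by simp [h1 i, h3 i], fun i => ?_⟩
    simp only [Pi.add_apply, Finset.sum_add_distrib]
    rw [h2 i, h4 i]
  smul_mem' := by
    rintro a x ⟨h1, h2⟩
    refine ⟨fun i => by simp [h1 i], fun i => ?_⟩
    simp only [Pi.smul_apply, smul_eq_mul, ← Finset.mul_sum]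
    rw [h2 i]

/-- seven coordinates -/
def phi (o : Fin 3 → Fin 4) : (Fin 3 → Fin 4 → ℝ) →ₗ[ℝ] (Fin 3 → ℝ) × (Fin 2 → ℝ) × (Fin 2 → ℝ) where
  toFun u := (fun k => u 0 ((o 0).succAbove k), fun k => u 1 ((o 1).succAbove k.castSucc),
    fun k => u 2 ((o 2).succAbove k.castSucc))
  map_add' _ _ := rfl
  map_smul' _ _ := rfl

theorem row_zero {f : Fin 4 → ℝ} {p : Fin 4} (hp : f p = 0) (h : ∀ k, f (p.succAbove k) = 0) :
    f = 0 := by
  funext j
  by_cases hj : j = p
  · rw [hj, hp]; rfl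
  · obtain ⟨k, rfl⟩ := Fin.exists_succAbove_eq hj
    exact h k

theorem row_zero' {f : Fin 4 → ℝ} {p : Fin 4} (hp : f p = 0)
    (h : ∀ k : Fin 2, f (p.succAbove k.castSucc) = 0) (hs : ∑ j, f j = 0) : f = 0 := by
  apply row_zero hp
  intro k
  rw [Fin.sum_univ_succAbove _ p, hp, zero_add, Fin.sum_univ_castSucc] at hs
  have h1 : ∑ i : Fin 2, f (p.succAbove i.castSucc) = 0 :=
    Finset.sum_eq_zero fun i _ => h i
  rw [h1, zero_add] at hs
  refine Fin.lastCases ?_ (fun i => ?_) k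
  · exact hs
  · exact h i

theorem finrank_U_le (o : Fin 3 → Fin 4) : Module.finrank ℝ (U o) ≤ 7 := by
  have hinj : Function.Injective ((phi o).comp (U o).subtype) := by
    rw [← LinearMap.ker_eq_bot, LinearMap.ker_eq_bot']
    rintro ⟨u, hu1, hu2⟩ h
    have h0 : ∀ k, u 0 ((o 0).succAbove k) = 0 := fun k => congrFun (congrArg Prod.fst h) k
    have h1 : ∀ k : Fin 2, u 1 ((o 1).succAbove k.castSucc) = 0 := fun k =>
      congrFun (congrArg (fun t => t.2.1) h) k
    have h2 : ∀ k : Fin 2, u 2 ((o 2).succAbove k.castSucc) = 0 := fun k =>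
      congrFun (congrArg (fun t => t.2.2) h) k
    have r0 : u 0 = 0 := row_zero (hu1 0) h0
    have hs : ∑ j, u 0 j = 0 := by rw [r0]; simp
    have r1 : u 1 = 0 := row_zero' (hu1 1) h1 (by rw [hu2 1, hs])
    have r2 : u 2 = 0 := row_zero' (hu1 2) h2 (by rw [hu2 2, hs])
    apply Subtype.ext
    funext i
    fin_cases i
    · exact r0
    · exact r1
    · exact r2
  have h1 := LinearMap.finrank_le_finrank_of_injective hinj
  have h2 : Module.finrank ℝ ((Fin 3 → ℝ) × (Fin 2 → ℝ) × (Fin 2 → ℝ)) = 7 := by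
    simp
  rw [h2] at h1
  exact h1

end G1

open G1 in
theorem cell_lemma {V : Type} [Fintype V] [DecidableEq V]
    (P : V → Fin 3 → Fin 4 → ℝ) (hP0 : ∀ v i j, 0 ≤ P v i j) (hP1 : ∀ v i, ∑ j, P v i j = 1)
    (o : Fin 3 → Fin 4) (T : Finset (Finset V)) (hT : T.Nonempty)
    (h : V → ℝ) (l : Finset V → Fin 3 → Fin 4 → ℝ)
    (hcard : ∀ σ ∈ T, σ.card = 7)
    (hcell : ∀ σ ∈ T, ∀ v ∈ σ, ∀ i, P v i (o i) = 0)
    (heq : ∀ σ ∈ T, ∀ v ∈ σ, ∑ i, ∑ j, l σ i j * P v i j = h v)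
    (hlt : ∀ σ ∈ T, ∀ v, v ∉ σ → (∀ i, P v i (o i) = 0) → ∑ i, ∑ j, l σ i j * P v i j < h v)
    (hridge : ∀ σ ∈ T, ∀ w ∈ σ,
      (∃ i j, (∀ v ∈ σ, v ≠ w → P v i j = 0) ∧ 0 < P w i j) ∨
      ∃ τ ∈ T, σ.erase w ⊆ τ ∧ w ∉ τ) :
    ∀ z : Fin 3 → Fin 4 → ℝ, (∀ i j, 0 ≤ z i j) → (∀ i, ∑ j, z i j = 1) → (∀ i, z i (o i) = 0) →
      ∃! x : V → ℝ, (∀ v, 0 ≤ x v) ∧ ∑ v, x v = 1 ∧ (∃ σ ∈ T, ∀ v, x v ≠ 0 → v ∈ σ) ∧
        ∀ i j, ∑ v, x v * P v i j = z i j := by
  -- the functionals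
  have hD : ∀ σ ∈ T, ∀ w ∈ σ, ∃ D : (Fin 3 → Fin 4 → ℝ) →ₗ[ℝ] ℝ,
      (∀ v ∈ σ, v ≠ w → D (P v) = 0) ∧ 0 < D (P w) ∧
      ∀ z : Fin 3 → Fin 4 → ℝ, (∀ i j, 0 ≤ z i j) → (∀ τ ∈ T, Lf (l τ) z ≤ Lf (l σ) z) → 0 ≤ D z := by
    intro σ hσ w hw
    rcases hridge σ hσ w hw with ⟨i, j, h1, h2⟩ | ⟨τ, hτ, h1, h2⟩
    · exact ⟨Cf i j, h1, h2, fun z hz _ => hz i j⟩
    · refine ⟨Lf (l σ) - Lf (l τ), fun v hv hvw => ?_, ?_, fun z _ hz => ?_⟩
      · rw [LinearMap.sub_apply, Lf_apply, Lf_apply, heq σ hσ v hv,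
          heq τ hτ v (h1 (Finset.mem_erase.2 ⟨hvw, hv⟩)), sub_self]
      · rw [LinearMap.sub_apply, Lf_apply, Lf_apply, heq σ hσ w hw, sub_pos]
        exact hlt τ hτ w h2 (hcell σ hσ w hw)
      · rw [LinearMap.sub_apply, sub_nonneg]
        exact hz τ hτ
  -- independence
  have hind : ∀ σ ∈ T, ∀ c : V → ℝ, ∑ v ∈ σ, c v • P v = 0 → ∀ w ∈ σ, c w = 0 := by
    intro σ hσ c hc w hw
    obtain ⟨D, h1, h2, -⟩ := hD σ hσ w hw
    have h3 := congrArg D hc
    rw [map_sum, map_zero, Finset.sum_eq_single w] at h3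
    · rw [map_smul, smul_eq_mul] at h3
      exact (mul_eq_zero.1 h3).resolve_right h2.ne'
    · intro v hv hvw
      rw [map_smul, h1 v hv hvw, smul_zero]
    · intro hw'
      exact absurd hw hw'
  have hPU : ∀ σ ∈ T, ∀ v ∈ σ, P v ∈ U o := fun σ hσ v hv =>
    ⟨hcell σ hσ v hv, fun i => by rw [hP1, hP1]⟩
  -- spanning
  have hspan : ∀ σ ∈ T, ∀ z ∈ U o, ∃ c : V → ℝ, ∑ v ∈ σ, c v • P v = z := by
    intro σ hσ z hz
    set b : σ → U o := fun v => ⟨P v.1, hPU σ hσ v.1 v.2⟩ with hb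
    have hli : LinearIndependent ℝ b := by
      rw [Fintype.linearIndependent_iff]
      intro g hg w
      have h1 : ∑ v ∈ σ, (fun v => if hv : v ∈ σ then g ⟨v, hv⟩ else 0) v • P v = 0 := by
        rw [← Finset.sum_coe_sort σ]
        have h2 := congrArg (U o).subtype hg
        rw [map_sum, map_zero] at h2
        rw [← h2]
        refine Finset.sum_congr rfl fun v _ => ?_
        simp [hb, v.2]
      have h3 := hind σ hσ _ h1 w.1 w.2
      simpa [w.2] using h3
    have hcard' : Fintype.card σ = 7 := by rw [Fintype.card_coe]; exact hcard σ hσ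
    have hfr : Fintype.card σ = Module.finrank ℝ (U o) := by
      apply le_antisymm
      · exact hli.fintype_card_le_finrank
      · rw [hcard']; exact finrank_U_le o
    have : Nonempty σ := by
      rw [← Fintype.card_pos_iff, hcard']; norm_num
    have htop := hli.span_eq_top_of_card_eq_finrank hfr
    have hz' : (⟨z, hz⟩ : U o) ∈ Submodule.span ℝ (Set.range b) := by rw [htop]; trivial
    rw [Submodule.mem_span_range_iff_exists_fun] at hz'
    obtain ⟨c, hc⟩ := hz'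
    refine ⟨fun v => if hv : v ∈ σ then c ⟨v, hv⟩ else 0, ?_⟩
    rw [← Finset.sum_coe_sort σ]
    have h2 := congrArg (U o).subtype hc
    rw [map_sum] at h2
    refine Eq.trans ?_ h2
    refine Finset.sum_congr rfl fun v _ => ?_
    simp [hb, v.2]
  intro z hz0 hz1 hzo
  have hzU : z ∈ U o := ⟨hzo, fun i => by rw [hz1, hz1]⟩
  -- existence
  obtain ⟨σ, hσ, hmax⟩ := Finset.exists_max_image T (fun τ => Lf (l τ) z) hT
  obtain ⟨c, hc⟩ := hspan σ hσ z hzU
  have hcnn : ∀ w ∈ σ, 0 ≤ c w := by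
    intro w hw
    obtain ⟨D, h1, h2, h3⟩ := hD σ hσ w hw
    have h4 := h3 z hz0 hmax
    rw [← hc, map_sum, Finset.sum_eq_single w] at h4
    · rw [map_smul, smul_eq_mul] at h4
      exact nonneg_of_mul_nonneg_left h4 h2
    · intro v hv hvw
      rw [map_smul, h1 v hv hvw, smul_zero]
    · intro hw'
      exact absurd hw hw'
  have hcz : ∀ i j, ∑ v ∈ σ, c v * P v i j = z i j := by
    intro i j
    rw [← hc, Finset.sum_apply, Finset.sum_apply]
    rfl
  set x : V → ℝ := fun v => if v ∈ σ then c v else 0 with hx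
  have hxsum : ∀ f : V → ℝ, ∑ v, x v * f v = ∑ v ∈ σ, c v * f v := by
    intro f
    simp only [hx, ite_mul, zero_mul]
    rw [Finset.sum_ite_mem, Finset.univ_inter]
  have hx1 : ∑ v, x v = 1 := by
    have h1 := hxsum fun _ => 1
    simp only [mul_one] at h1
    rw [h1, ← hz1 0]
    simp only [← hcz]
    rw [Finset.sum_comm]
    refine Finset.sum_congr rfl fun v _ => ?_
    rw [← Finset.mul_sum, hP1, mul_one]
  refine ⟨x, ⟨fun v => ?_, hx1, ⟨σ, hσ, fun v hv => ?_⟩, fun i j => ?_⟩, ?_⟩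
  · by_cases hv : v ∈ σ
    · simp only [hx, if_pos hv]; exact hcnn v hv
    · simp only [hx, if_neg hv]; exact le_rfl
  · by_contra hcon
    exact hv (by simp only [hx, if_neg hcon])
  · rw [hxsum fun v => P v i j]; exact hcz i j
  · -- uniqueness
    rintro y ⟨hy0, hy1, ⟨τ, hτ, hyτ⟩, hyz⟩
    have hvc : ∀ v, y v ≠ 0 → ∀ i, P v i (o i) = 0 := by
      intro v hv i
      have h1 : ∑ v, y v * P v i (o i) = 0 := by rw [hyz, hzo]
      rw [Finset.sum_eq_zero_iff_of_nonneg fun v _ => mul_nonneg (hy0 v) (hP0 v i _)] at h1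
      exact (mul_eq_zero.1 (h1 v (Finset.mem_univ v))).resolve_left hv
    have hLf : ∀ (u : V → ℝ) (c : Fin 3 → Fin 4 → ℝ), (∀ i j, ∑ v, u v * P v i j = z i j) →
        Lf c z = ∑ v, u v * Lf c (P v) := by
      intro u c hu
      have h1 : z = ∑ v, u v • P v := by
        funext i j
        rw [← hu i j, Finset.sum_apply, Finset.sum_apply]
        rfl
      rw [h1, map_sum]
      refine Finset.sum_congr rfl fun v _ => ?_
      rw [map_smul, smul_eq_mul]
    have hle : ∀ ρ ∈ T, ∀ v, (∀ i, P v i (o i) = 0) → Lf (l ρ) (P v) ≤ h v := by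
      intro ρ hρ v hv
      by_cases hm : v ∈ ρ
      · exact (heq ρ hρ v hm).le
      · exact (hlt ρ hρ v hm hv).le
    have hyh : ∑ v, y v * h v = Lf (l τ) z := by
      rw [hLf y (l τ) hyz]
      refine Finset.sum_congr rfl fun v _ => ?_
      by_cases hv : y v = 0
      · rw [hv, zero_mul, zero_mul]
      · have := heq τ hτ v (hyτ v hv)
        rw [Lf_apply, this]
    have hyle : ∀ v, y v * Lf (l σ) (P v) ≤ y v * h v := by
      intro v
      by_cases hv : y v = 0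
      · rw [hv, zero_mul, zero_mul]
      · exact mul_le_mul_of_nonneg_left (hle σ hσ v (hvc v hv)) (hy0 v)
    have hsum : ∑ v, y v * Lf (l σ) (P v) = ∑ v, y v * h v := by
      apply le_antisymm (Finset.sum_le_sum fun v _ => hyle v)
      rw [hyh, ← hLf y (l σ) hyz]
      exact hmax τ hτ
    have hyσ : ∀ v, y v ≠ 0 → v ∈ σ := by
      intro v hv
      by_contra hcon
      have h1 := (Finset.sum_eq_sum_iff_of_le fun v _ => hyle v).1 hsum v (Finset.mem_univ v)
      have h2 := hlt σ hσ v hcon (hvc v hv)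
      have h3 := mul_left_cancel₀ hv h1
      rw [Lf_apply] at h3
      linarith
    have h1 : ∑ v ∈ σ, (y v - c v) • P v = 0 := by
      have h2 : ∑ v ∈ σ, y v • P v = z := by
        funext i j
        rw [Finset.sum_apply, Finset.sum_apply, ← hyz i j]
        refine Finset.sum_subset (Finset.subset_univ σ) fun v _ hv => ?_
        have : y v = 0 := by
          by_contra hcon
          exact hv (hyσ v hcon)
        simp [this]
      simp only [sub_smul, Finset.sum_sub_distrib]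
      rw [h2, hc, sub_self]
    have h2 := hind σ hσ _ h1
    funext v
    by_cases hv : v ∈ σ
    · have := h2 v hv
      simp only [hx, if_pos hv]
      linarith
    · simp only [hx, if_neg hv]
      by_contra hcon
      exact hv (hyσ v hcon)

end Pool.Agent.helper73.TC
end
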