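import Pool.Agent.helper73.TC.YDefs
import Pool.Agent.helper73.TC.Data.PaT1
import Pool.Agent.helper73.TC.Data.PaT2
import Pool.Agent.helper74.TC.Refl

/-!
# Vertex links and edge links from the lists of nonfaces (TY-2)

Used for `MP_a50e43_gt` (tight polyhedral embedding of complex projective 3-space).
-/

set_option autoImplicit false
set_option linter.all false
open Topology

noncomputable section
namespace Pool.Agent.helper73.TC

namespace Y2

theorem allL_iff (f : ℕ → Bool) (L : List ℕ) : Pa.allL f L = true ↔ ∀ m ∈ L, f m = true :=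
  Ce.lrec_iff f L

theorem anySub_iff (m : ℕ) (P : List ℕ) :
    Pa.anySub m P = true ↔ ∃ p ∈ P, p &&& m = p := by
  induction P with
  | nil => simp [Pa.anySub]
  | cons p P ih =>
    have h : Pa.anySub m (p :: P)
        = @Bool.rec (fun _ => Bool) (Pa.anySub m P) true (Nat.beq (Nat.land p m) p) := rfl
    rw [h]
    cases hb : Nat.beq (Nat.land p m) p with
    | true =>
      have h1 : p &&& m = p := (Ce.beq_iff _ _).1 hb
      exact ⟨fun _ => ⟨p, by simp, h1⟩, fun _ => rfl⟩
    | false =>
      have h1 : ¬ p &&& m = p := by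
        intro h2
        have h3 := (Ce.beq_iff (Nat.land p m) p).2 h2
        rw [h3] at hb
        exact absurd hb (by simp)
      show Pa.anySub m P = true ↔ _
      rw [ih]
      constructor
      · rintro ⟨q, hq, h2⟩
        exact ⟨q, List.mem_cons_of_mem _ hq, h2⟩
      · rintro ⟨q, hq, h2⟩
        rcases List.mem_cons.1 hq with rfl | hq
        · exact absurd h2 h1
        · exact ⟨q, hq, h2⟩

theorem sub_of_land {p m : ℕ} (h : p &&& m = p) (i : ℕ) (hi : p.testBit i = true) :
    m.testBit i = true := by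
  have := congrArg (fun x => Nat.testBit x i) h
  simp only [Nat.testBit_and, hi, Bool.true_and] at this
  exact this

theorem hasSub_elim {P : List ℕ} {m : ℕ} (h : Pa.hasSub P m = true) :
    ∃ p ∈ P, ∀ i, p.testBit i = true → m.testBit i = true := by
  obtain ⟨p, hp, h1⟩ := (anySub_iff m P).1 h
  exact ⟨p, hp, fun i => sub_of_land h1 i⟩

theorem xor_one_ne (c : ℕ) : Nat.xor c 1 ≠ c := by
  intro h
  have h' : c ^^^ 1 = c := h
  have h1 := congrArg (fun x => Nat.testBit x 0) h'
  simp only [Nat.testBit_xor] at h1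
  revert h1
  cases c.testBit 0 <;> decide

theorem xor_one_lt {c : ℕ} (hc : c < 20) : Nat.xor c 1 < 20 := by
  interval_cases c <;> decide

theorem rmp_testBit (S c i : ℕ) :
    (rmp S c).testBit i = (S.testBit i && !(decide (c = i) || decide (Nat.xor c 1 = i))) := by
  have : (rmp S c).testBit i = (S ^^^ (S &&& (2 ^ c ||| 2 ^ (Nat.xor c 1)))).testBit i := rfl
  rw [this, Nat.testBit_xor, Nat.testBit_and, Nat.testBit_or, Nat.testBit_two_pow,
    Nat.testBit_two_pow]
  cases S.testBit i <;> cases decide (c = i) <;> cases decide (Nat.xor c 1 = i) <;> rfl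

theorem testBit_add_two_pow {b x : ℕ} (hb : b.testBit x = false) (j : ℕ) :
    (2 ^ x + b).testBit j = true ↔ j = x ∨ b.testBit j = true := by
  rcases lt_trichotomy j x with h | h | h
  · rw [Nat.testBit_two_pow_add_gt h]
    constructor
    · exact fun h => Or.inr h
    · rintro (h1 | h1)
      · omega
      · exact h1
  · subst h
    rw [Nat.testBit_two_pow_add_eq, hb]
    simp
  · have hmod : b % 2 ^ (x + 1) < 2 ^ x := by
      have h1 : b % 2 ^ (x + 1) < 2 ^ (x + 1) := Nat.mod_lt _ (by positivity)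
      by_contra hc
      push Not at hc
      have h2 : (b % 2 ^ (x + 1)).testBit x = true := by
        rw [Nat.testBit_eq_decide_div_mod_eq]
        have h3 : b % 2 ^ (x + 1) / 2 ^ x = 1 := by
          rw [Nat.div_eq_iff (by positivity)]
          rw [pow_succ] at h1
          omega
        rw [h3]
        simp
      rw [Nat.testBit_mod_two_pow] at h2
      simp [hb] at h2
    have hdiv : (2 ^ x + b) / 2 ^ (x + 1) = b / 2 ^ (x + 1) := by
      have h1 := Nat.div_add_mod b (2 ^ (x + 1))
      have h2 : 2 ^ x + b = (2 ^ x + b % 2 ^ (x + 1)) + 2 ^ (x + 1) * (b / 2 ^ (x + 1)) := by omega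
      rw [h2, Nat.add_mul_div_left _ _ (by positivity), Nat.div_eq_of_lt]
      · omega
      · have : 2 ^ (x + 1) = 2 ^ x + 2 ^ x := by ring
        omega
    have e1 : (2 ^ x + b).testBit j = ((2 ^ x + b) / 2 ^ (x + 1)).testBit (j - (x + 1)) := by
      rw [Nat.testBit_div_two_pow]
      congr 1
      omega
    have e2 : b.testBit j = (b / 2 ^ (x + 1)).testBit (j - (x + 1)) := by
      rw [Nat.testBit_div_two_pow]
      congr 1
      omega
    rw [e1, hdiv, ← e2]
    constructor
    · exact fun h => Or.inr h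
    · rintro (h1 | h1)
      · omega
      · exact h1

/-- the three parts of the check -/
theorem chkE_parts {N L : List ℕ} {c : ℕ} (h : Pa.chkE N L c = true) :
    (∃ p ∈ N, ∀ i, p.testBit i = true → i = c ∨ i = Nat.xor c 1) ∧
    (∀ m ∈ N, (m.testBit c = true → (∀ i, m.testBit i = true → i = c ∨ i = Nat.xor c 1) ∧
          m.testBit (Nat.xor c 1) = true ∨
          ∃ p ∈ L, ∀ i, p.testBit i = true → m.testBit i = true ∧ i ≠ c) ∧
      (m.testBit c = false → m.testBit (Nat.xor c 1) = true ∨
          ∃ p ∈ L, ∀ i, p.testBit i = true → m.testBit i = true)) ∧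
    (∀ n ∈ L, n.testBit c = false ∧ n.testBit (Nat.xor c 1) = false ∧ MOK n ∧
      ∃ p ∈ N, ∀ i, p.testBit i = true → i = c ∨ n.testBit i = true) := by
  have hne := xor_one_ne c
  obtain ⟨h1, h2⟩ := (Ce.and_iff _ _).1 h
  obtain ⟨h2, h3⟩ := (Ce.and_iff _ _).1 h2
  rw [allL_iff] at h2 h3
  refine ⟨?_, ?_, ?_⟩
  · obtain ⟨p, hp, hs⟩ := hasSub_elim h1
    refine ⟨p, hp, fun i hi => ?_⟩
    have h4 := hs i hi
    have h5 : (2 ^ c + 2 ^ (Nat.xor c 1)).testBit i = true := h4
    rw [testBit_add_two_pow (by rw [Nat.testBit_two_pow]; simp [hne])] at h5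
    rcases h5 with h5 | h5
    · exact Or.inl h5
    · rw [Nat.testBit_two_pow] at h5
      exact Or.inr (by simpa using h5 : Nat.xor c 1 = i).symm
  · intro m hm
    have h4 := h2 m hm
    constructor
    · intro hc
      rw [hc] at h4
      have h5 : Bool.or (Nat.beq (Nat.xor m (Nat.pow 2 c)) (Nat.pow 2 (Nat.xor c 1)))
        (Pa.hasSub L (Nat.xor m (Nat.pow 2 c))) = true := h4
      have hx : ∀ i, (Nat.xor m (Nat.pow 2 c)).testBit i = (m.testBit i ^^ decide (c = i)) := by
        intro i
        have : (Nat.xor m (Nat.pow 2 c)).testBit i = (m ^^^ 2 ^ c).testBit i := rfl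
        rw [this, Nat.testBit_xor, Nat.testBit_two_pow]
      rcases (Ce.or_iff _ _).1 h5 with h5 | h5
      · left
        have h6 : Nat.xor m (Nat.pow 2 c) = Nat.pow 2 (Nat.xor c 1) := (Ce.beq_iff _ _).1 h5
        have h7 : ∀ i, (m.testBit i ^^ decide (c = i)) = decide (Nat.xor c 1 = i) := by
          intro i
          rw [← hx, h6]
          exact Nat.testBit_two_pow
        constructor
        · intro i hi
          have h8 := h7 i
          rw [hi] at h8
          by_cases hci : c = i
          · exact Or.inl hci.symm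
          · right
            simp only [hci, decide_false, Bool.xor_false] at h8
            exact (of_decide_eq_true h8.symm).symm
        · have h8 := h7 (Nat.xor c 1)
          have hne' : ¬ c = Nat.xor c 1 := fun h => hne h.symm
          simp only [hne', decide_false, Bool.xor_false, decide_true] at h8
          exact h8
      · right
        obtain ⟨p, hp, hs⟩ := hasSub_elim h5
        refine ⟨p, hp, fun i hi => ?_⟩
        have h6 := hs i hi
        rw [hx] at h6
        by_cases hci : c = i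
        · subst hci
          rw [hc] at h6
          simp at h6
        · simp only [hci, decide_false, Bool.xor_false] at h6
          exact ⟨h6, fun h => hci h.symm⟩
    · intro hc
      rw [hc] at h4
      have h5 : @Bool.rec (fun _ => Bool) (Pa.hasSub L m) true (Nat.testBit m (Nat.xor c 1)) = true := h4
      cases hb : m.testBit (Nat.xor c 1) with
      | true => exact Or.inl rfl
      | false =>
        rw [hb] at h5
        exact Or.inr (hasSub_elim h5)
  · intro n hn
    have h4 := h3 n hn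
    obtain ⟨h5, h6⟩ := (Ce.and_iff _ _).1 h4
    obtain ⟨h7, h8⟩ := (Ce.and_iff _ _).1 h5
    obtain ⟨h9, h10⟩ := (Ce.and_iff _ _).1 h6
    obtain ⟨h11, h12⟩ := (Ce.and_iff _ _).1 h9
    have h7' := (Ce.not_iff _).1 h7
    have h8' := (Ce.not_iff _).1 h8
    refine ⟨h7', h8', ⟨(Ce.blt_iff _ _).1 h11, (Ce.blt_iff _ _).1 h12⟩, ?_⟩
    obtain ⟨p, hp, hs⟩ := hasSub_elim h10
    refine ⟨p, hp, fun i hi => ?_⟩
    have h13 := hs i hi
    have h14 : (n + 2 ^ c).testBit i = true := h13
    rw [Nat.add_comm, testBit_add_two_pow h7'] at h14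
    exact h14

end Y2

/-- the nonfaces of `L` describe the link of `c` -/
theorem chkE_sound (N L : List ℕ) (c S : ℕ) (hc : c < 20) (hS : S < 1048576)
    (hSc : S.testBit c = true) (hN : ∀ m ∈ N, MOK m) (h : Pa.chkE N L c = true) :
    lk (nfc 20 S N) ⟨c, hc⟩ = nfc 20 (rmp S c) L ∧ ∀ m ∈ L, MOK m := by
  obtain ⟨⟨p0, hp0, hs0⟩, h2, h3⟩ := Y2.chkE_parts h
  have hne := Y2.xor_one_ne c
  have hlt := Y2.xor_one_lt hc
  refine ⟨?_, fun m hm => (h3 m hm).2.2.1⟩
  ext s
  constructor
  · rintro ⟨hcs, hf, hn⟩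
    have hc' : (⟨Nat.xor c 1, hlt⟩ : Fin 20) ∉ s := by
      intro hmem
      apply hn p0 hp0
      intro i hi
      rcases hs0 i.1 hi with h4 | h4
      · have : i = ⟨c, hc⟩ := Fin.ext h4
        rw [this]
        exact Finset.mem_insert_self _ _
      · have : i = ⟨Nat.xor c 1, hlt⟩ := Fin.ext h4
        rw [this]
        exact Finset.mem_insert_of_mem hmem
    constructor
    · intro i hi
      have h4 := hf i (Finset.mem_insert_of_mem hi)
      rw [Y2.rmp_testBit, h4]
      have h5 : ¬ c = i.1 := by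
        intro h5
        apply hcs
        have : i = ⟨c, hc⟩ := Fin.ext h5.symm
        rw [← this]
        exact hi
      have h6 : ¬ Nat.xor c 1 = i.1 := by
        intro h6
        apply hc'
        have : i = ⟨Nat.xor c 1, hlt⟩ := Fin.ext h6.symm
        rw [← this]
        exact hi
      simp only [h5, h6, decide_false]
      rfl
    · intro n hn' hsub
      obtain ⟨_, _, _, p, hp, hps⟩ := h3 n hn'
      apply hn p hp
      intro i hi
      rcases hps i.1 hi with h4 | h4
      · have : i = ⟨c, hc⟩ := Fin.ext h4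
        rw [this]
        exact Finset.mem_insert_self _ _
      · exact Finset.mem_insert_of_mem (hsub i h4)
  · rintro ⟨hf, hn⟩
    have hcs : (⟨c, hc⟩ : Fin 20) ∉ s := by
      intro hmem
      have h4 := hf _ hmem
      rw [Y2.rmp_testBit] at h4
      simp at h4
    have hc' : (⟨Nat.xor c 1, hlt⟩ : Fin 20) ∉ s := by
      intro hmem
      have h4 := hf _ hmem
      rw [Y2.rmp_testBit] at h4
      simp at h4
    have hc'' : (⟨Nat.xor c 1, hlt⟩ : Fin 20) ∉ insert (⟨c, hc⟩ : Fin 20) s := by
      intro hmem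
      rcases Finset.mem_insert.1 hmem with h4 | h4
      · exact hne (congrArg Fin.val h4)
      · exact hc' h4
    refine ⟨hcs, ?_, ?_⟩
    · intro i hi
      rcases Finset.mem_insert.1 hi with h4 | h4
      · rw [h4]
        exact hSc
      · have h5 := hf i h4
        rw [Y2.rmp_testBit] at h5
        rw [Bool.and_eq_true] at h5
        exact h5.1
    · intro m hm hsub
      obtain ⟨h4, h5⟩ := h2 m hm
      cases hb : m.testBit c with
      | true =>
        rcases h4 hb with ⟨_, h6⟩ | ⟨p, hp, hps⟩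
        · exact hc'' (hsub ⟨Nat.xor c 1, hlt⟩ h6)
        · apply hn p hp
          intro i hi
          obtain ⟨h7, h8⟩ := hps i.1 hi
          rcases Finset.mem_insert.1 (hsub i h7) with h9 | h9
          · exact absurd (congrArg Fin.val h9) h8
          · exact h9
      | false =>
        rcases h5 hb with h6 | ⟨p, hp, hps⟩
        · exact hc'' (hsub ⟨Nat.xor c 1, hlt⟩ h6)
        · apply hn p hp
          intro i hi
          have h7 := hps i.1 hi
          rcases Finset.mem_insert.1 (hsub i h7) with h9 | h9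
          · rw [h9] at h7
            rw [hb] at h7
            exact absurd h7 (by simp)
          · exact h9

theorem NK_ok : ∀ m ∈ Pa.NK, MOK m := by
  intro m hm
  have h := (Y2.allL_iff _ _).1 Pa.t1_ok m hm
  obtain ⟨h1, h2⟩ := (Ce.and_iff _ _).1 h
  exact ⟨(Ce.blt_iff _ _).1 h1, (Ce.blt_iff _ _).1 h2⟩

namespace Y2

theorem chk_NV (i : ℕ) (hi : i < 10) : Pa.chkE Pa.NK (Pa.NV i) (2 * i) = true := by
  interval_cases i
  · exact Pa.t2_0
  · exact Pa.t2_1
  · exact Pa.t2_2
  · exact Pa.t2_3
  · exact Pa.t2_4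
  · exact Pa.t2_5
  · exact Pa.t2_6
  · exact Pa.t2_7
  · exact Pa.t2_8
  · exact Pa.t2_9

theorem chk_NE (i c : ℕ) (hi : i < 10) (h1 : 2 * i + 2 ≤ c) (hc : c < 20) :
    Pa.chkE (Pa.NV i) (Pa.getL (Pa.NE i) c) c = true := by
  interval_cases i
  · exact (allL_iff _ _).1 Pa.t3_0 c (by interval_cases c <;> simp)
  · exact (allL_iff _ _).1 Pa.t3_1 c (by interval_cases c <;> simp)
  · exact (allL_iff _ _).1 Pa.t3_2 c (by interval_cases c <;> simp)
  · exact (allL_iff _ _).1 Pa.t3_3 c (by interval_cases c <;> simp)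
  · exact (allL_iff _ _).1 Pa.t3_4 c (by interval_cases c <;> simp)
  · exact (allL_iff _ _).1 Pa.t3_5 c (by interval_cases c <;> simp)
  · exact (allL_iff _ _).1 Pa.t3_6 c (by interval_cases c <;> simp)
  · exact (allL_iff _ _).1 Pa.t3_7 c (by interval_cases c <;> simp)
  · exact (allL_iff _ _).1 Pa.t3_8 c (by interval_cases c <;> simp)
  · omega

end Y2

theorem NV_ok (i : ℕ) (hi : i < 10) : ∀ m ∈ Pa.NV i, MOK m :=
  fun m hm => ((Y2.chkE_parts (Y2.chk_NV i hi)).2.2 m hm).2.2.1

theorem lk_NK (i S : ℕ) (hi : i < 10) (hS : S < 1048576) (hSc : S.testBit (2 * i) = true) :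
    lk (nfc 20 S Pa.NK) ⟨2 * i, by omega⟩ = nfc 20 (rmp S (2 * i)) (Pa.NV i) :=
  (chkE_sound Pa.NK (Pa.NV i) (2 * i) S (by omega) hS hSc NK_ok (Y2.chk_NV i hi)).1

theorem NE_ok (i c : ℕ) (hi : i < 10) (h1 : 2 * i + 2 ≤ c) (hc : c < 20) :
    ∀ m ∈ Pa.getL (Pa.NE i) c, MOK m :=
  fun m hm => ((Y2.chkE_parts (Y2.chk_NE i c hi h1 hc)).2.2 m hm).2.2.1

theorem lk_NV (i c S : ℕ) (hi : i < 10) (h1 : 2 * i + 2 ≤ c) (hc : c < 20) (hS : S < 1048576)
    (hSc : S.testBit c = true) :
    lk (nfc 20 S (Pa.NV i)) ⟨c, hc⟩ = nfc 20 (rmp S c) (Pa.getL (Pa.NE i) c) :=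
  (chkE_sound (Pa.NV i) (Pa.getL (Pa.NE i) c) c S hc hS hSc (NV_ok i hi) (Y2.chk_NE i c hi h1 hc)).1

end Pool.Agent.helper73.TC
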